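import Pool.Agent.H63.CV.Gen
import Pool.Agent.H14.GLCH.Main

set_option autoImplicit false

open Cardinal Submodule

namespace Pool.Agent.H63.CV

open Pool.Agent.H14.GLCH

variable {F : Type} [Field F] {V : Type} [AddCommGroup V] [Module F V]

/-- **One extension**, generic over fewer than `cov(M)` tasks. -/
theorem exists_ext' (hF : #F ≤ ℵ₀) (hV : Module.rank F V ≤ ℵ₀) (Γ : Subgroup (V ≃ₗ[F] V))
    (hΓ : #Γ < covM) (U : Submodule F V) (hU : CoLarge ℵ₀ U) (f : U ≃ₗ[F] U) :
    ∃ h : V ≃ₗ[F] V, (∀ u : U, h (u : V) = (f u : V)) ∧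
      ∀ (x : Letter F V) (m : List (Letter F V)), (∀ y ∈ x :: m, y.2 ∈ Γ) → Good ℵ₀ (x :: m) →
        ∀ c : F, c ≠ 0 → ∀ z : V, ∃ v : V, evg h (x :: m) v = c • v + z := by
  classical
  have hVc : #V ≤ ℵ₀ := mk_le_of_rank le_rfl hF hV
  have hVcount : Countable V := Cardinal.mk_le_aleph0_iff.mp hVc
  -- tasks
  let T := (List (Bool × Γ) × F × V) ⊕ (Bool × V)
  obtain ⟨μ, hμ0, hΓμ, hμ⟩ : ∃ μ : Cardinal.{0}, ℵ₀ ≤ μ ∧ #Γ ≤ μ ∧ μ < covM :=
    ⟨max ℵ₀ #Γ, le_max_left _ _, le_max_right _ _, max_lt aleph0_lt_covM hΓ⟩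
  have hmul : ∀ {α β : Type}, #α ≤ μ → #β ≤ μ → #(α × β) ≤ μ := by
    intro α β h1 h2
    rw [Cardinal.mk_prod, Cardinal.lift_id, Cardinal.lift_id]
    exact (mul_le_mul' h1 h2).trans (Cardinal.mul_eq_self hμ0).le
  have hmulB : ∀ {β : Type}, #β ≤ μ → #(Bool × β) ≤ μ := by
    intro β h2
    refine hmul ?_ h2
    rw [Cardinal.mk_bool]
    exact (Cardinal.natCast_lt_aleph0 (n := 2)).le.trans hμ0
  have hT : #T ≤ μ := by
    change #((List (Bool × Γ) × F × V) ⊕ (Bool × V)) ≤ μ
    rw [Cardinal.mk_sum, Cardinal.lift_id, Cardinal.lift_id]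
    refine (add_le_add ?_ (hmulB (hVc.trans hμ0))).trans (Cardinal.add_eq_self hμ0).le
    refine hmul ?_ (hmul (hF.trans hμ0) (hVc.trans hμ0))
    exact (Cardinal.mk_list_le_max _).trans (max_le hμ0 (hmulB hΓμ))
  have hTlt : #T < covM := hT.trans_lt hμ
  let S0 : Submodule F (V × V) :=
    LinearMap.range (U.subtype.prod (U.subtype.comp f.toLinearMap))
  have hS0mem : ∀ u : U, ((u : V), (f u : V)) ∈ S0 := fun u => ⟨u, rfl⟩
  have hS0 : Inj S0 := by
    rintro _ ⟨u, rfl⟩ e he
    have : u = 0 := by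
      cases e
      · have he' : (f u : V) = 0 := he
        have : f u = 0 := Subtype.ext he'
        simpa using this
      · have he' : (u : V) = 0 := he
        exact Subtype.ext he'
    rw [this, map_zero, map_zero]
  have hside : ∀ b, side b S0 ≤ U := by
    intro b
    rintro _ ⟨_, ⟨u, rfl⟩, rfl⟩
    cases b
    · simp [pr]
    · simp [pr]
  let emb : Bool × Γ → Letter F V := fun p => (p.1, (p.2 : V ≃ₗ[F] V))
  let Ach : T → Submodule F (V × V) → Prop := fun t S =>
    match t with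
    | Sum.inl (l, c, z) => ∀ (x : Letter F V) (m : List (Letter F V)), l.map emb = x :: m →
        Good ℵ₀ (x :: m) → c ≠ 0 → ∃ v, Reach S (x :: m) v (c • v + z)
    | Sum.inr (e, v) => v ∈ side e S
  -- conditions
  let gr : Finset (V × V) → Submodule F (V × V) := fun s => S0 ⊔ span F (s : Set (V × V))
  let P : Type := {s : Finset (V × V) // Inj (gr s)}
  have hco : ∀ (p : P) (b : Bool), CoLarge ℵ₀ (side b (gr p.1)) := by
    intro p b
    change CoLarge ℵ₀ (side b (S0 ⊔ span F (p.1 : Set (V × V))))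
    rw [side_sup, side_span]
    refine CoLarge.sup_span le_rfl (hU.mono (hside b)) ?_
    rw [Cardinal.lt_aleph0_iff_set_finite]
    exact (p.1.finite_toSet).image _
  have hgr : ∀ s t : Finset (V × V), gr s ⊔ span F (t : Set (V × V)) = gr (s ∪ t) := by
    intro s t
    change S0 ⊔ span F (s : Set (V × V)) ⊔ span F (t : Set (V × V)) =
      S0 ⊔ span F ((s ∪ t : Finset (V × V)) : Set (V × V))
    rw [Finset.coe_union, Submodule.span_union, sup_assoc]
  have hstep : ∀ (t : T) (p : P), ∃ s : Finset (V × V), Inj (gr p.1 ⊔ span F (s : Set (V × V))) ∧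
      Ach t (gr p.1 ⊔ span F (s : Set (V × V))) := by
    rintro (⟨l, c, z⟩ | ⟨e, v⟩) p
    · by_cases hc : c = 0
      · refine ⟨∅, by simpa using p.2, ?_⟩
        intro x m _ _ hc'
        exact absurd hc hc'
      · cases hl : l.map emb with
        | nil =>
          refine ⟨∅, by simpa using p.2, ?_⟩
          intro x m hlm
          rw [hl] at hlm
          exact absurd hlm (by simp)
        | cons x0 m0 =>
          by_cases hg : Good ℵ₀ (x0 :: m0)
          · obtain ⟨s, hs1, hs2⟩ := word_task le_rfl p.2 (hco p) x0 m0 hg c hc z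
            refine ⟨s, hs1, ?_⟩
            intro x m hlm _ _
            rw [hl] at hlm
            rw [← hlm]
            exact hs2
          · refine ⟨∅, by simpa using p.2, ?_⟩
            intro x m hlm hg'
            rw [hl] at hlm
            rw [← hlm] at hg'
            exact absurd hg' hg
    · exact total_task le_rfl p.2 (hco p) e v
  have hmono : ∀ (t : T) (S S' : Submodule F (V × V)), S ≤ S' → Ach t S → Ach t S' := by
    rintro (⟨l, c, z⟩ | ⟨e, v⟩) S S' hSS' hach
    · intro x m hlm hg hc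
      obtain ⟨v, hv⟩ := hach x m hlm hg hc
      exact ⟨v, hv.mono hSS'⟩
    · exact side_mono hSS' hach
  have hP0 : Inj (gr ∅) := by
    change Inj (S0 ⊔ span F ((∅ : Finset (V × V)) : Set (V × V)))
    simpa using hS0
  obtain ⟨s, hs0, hs1, hs2⟩ := exists_seq (P := P) (fun p q => gr q.1 ≤ gr p.1)
    (fun p => le_rfl) ⟨∅, hP0⟩ hTlt (fun t p => Ach t (gr p.1)) (by
      intro t p
      obtain ⟨s, hs1, hs2⟩ := hstep t p
      rw [hgr] at hs1 hs2
      exact ⟨⟨p.1 ∪ s, hs1⟩, (le_sup_left.trans (hgr p.1 s).le), hs2⟩)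
  have hmon : Monotone (fun n => gr (s n).1) := monotone_nat_of_le_succ hs1
  let S : Submodule F (V × V) := ⨆ n, gr (s n).1
  have hSmem : ∀ p, p ∈ S ↔ ∃ n, p ∈ gr (s n).1 := by
    intro p
    exact Submodule.mem_iSup_of_directed _ hmon.directed_le
  have hI : Inj S := by
    intro p hp e he
    obtain ⟨n, hn⟩ := (hSmem p).mp hp
    exact (s n).2 p hn e he
  have hle : S0 ≤ S := le_trans le_sup_left (le_iSup (fun n => gr (s n).1) 0)
  have hA : ∀ t, Ach t S := by
    intro t
    obtain ⟨n, hn⟩ := hs2 t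
    exact hmono t _ _ (le_iSup (fun n => gr (s n).1) n) hn
  obtain ⟨h, hh⟩ := exists_equiv_of_graph hI (fun v => hA (Sum.inr (true, v)))
    (fun v => hA (Sum.inr (false, v)))
  refine ⟨h, fun u => hh _ _ (hle (hS0mem u)), ?_⟩
  intro x m hmem hg c hc z
  have hl : ∃ l : List (Bool × Γ), l.map emb = x :: m := by
    generalize x :: m = w at hmem
    induction w with
    | nil => exact ⟨[], rfl⟩
    | cons y w ih =>
      obtain ⟨l, hl⟩ := ih (fun y' hy' => hmem y' (List.mem_cons_of_mem _ hy'))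
      exact ⟨(y.1, ⟨y.2, hmem y (by simp)⟩) :: l, by rw [List.map_cons, hl]⟩
  obtain ⟨l, hl⟩ := hl
  obtain ⟨v, hv⟩ := hA (Sum.inl (l, c, z)) x m hl hg hc
  exact ⟨v, reach_ev hh _ _ _ hv⟩

end Pool.Agent.H63.CV
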