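import Mathlib

set_option autoImplicit false

open Cardinal Topology

namespace Pool.Agent.H63.CV

/-- `cov(M)`: the least cardinal number of a family of meagre subsets of the Baire space
`ℕ → ℕ` whose union is the whole space. -/
noncomputable def covM : Cardinal.{0} :=
  sInf {c | ∃ A : Set (Set (ℕ → ℕ)), (∀ a ∈ A, IsMeagre a) ∧ ⋃₀ A = Set.univ ∧ #A = c}

theorem exists_avoid {ι : Type} (hι : #ι < covM) (A : ι → Set (ℕ → ℕ))
    (hA : ∀ i, IsMeagre (A i)) : ∃ x : ℕ → ℕ, ∀ i, x ∉ A i := by
  by_contra hcon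
  push Not at hcon
  have h1 : covM ≤ #(Set.range A) := by
    refine csInf_le' ⟨Set.range A, ?_, ?_, rfl⟩
    · rintro _ ⟨i, rfl⟩
      exact hA i
    · rw [Set.eq_univ_iff_forall]
      intro x
      obtain ⟨i, hi⟩ := hcon x
      exact ⟨A i, ⟨i, rfl⟩, hi⟩
  exact absurd hι (not_lt.mpr (h1.trans Cardinal.mk_range_le))

/-- an open set contains a cylinder around each of its points -/
theorem exists_cyl {U : Set (ℕ → ℕ)} (hU : IsOpen U) {x : ℕ → ℕ} (hx : x ∈ U) :
    ∃ N : ℕ, ∀ y : ℕ → ℕ, (∀ n < N, y n = x n) → y ∈ U := by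
  rw [isOpen_pi_iff] at hU
  obtain ⟨I, u, hu, hsub⟩ := hU x hx
  refine ⟨I.sup id + 1, fun y hy => hsub ?_⟩
  intro i hi
  have h1 : i < I.sup id + 1 := Nat.lt_succ_of_le (Finset.le_sup (f := id) hi)
  rw [hy i h1]
  exact (hu i hi).2

theorem isMeagre_of {A : Set (ℕ → ℕ)} (hA : IsClosed A)
    (h : ∀ x ∈ A, ∀ N : ℕ, ∃ y : ℕ → ℕ, (∀ n < N, y n = x n) ∧ y ∉ A) : IsMeagre A := by
  have h1 : IsNowhereDense A := by
    rw [hA.isNowhereDense_iff, Set.eq_empty_iff_forall_notMem]
    intro x hx
    rw [mem_interior] at hx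
    obtain ⟨U, hUA, hU, hxU⟩ := hx
    obtain ⟨N, hN⟩ := exists_cyl hU hxU
    obtain ⟨y, hy, hyA⟩ := h x (hUA hxU) N
    exact hyA (hUA (hN y hy))
  exact h1.isMeagre

theorem aleph0_lt_covM : ℵ₀ < covM := by
  have hne : {c : Cardinal.{0} | ∃ A : Set (Set (ℕ → ℕ)), (∀ a ∈ A, IsMeagre a) ∧
      ⋃₀ A = Set.univ ∧ #A = c}.Nonempty := by
    refine ⟨_, Set.range (fun x : ℕ → ℕ => ({x} : Set (ℕ → ℕ))), ?_, ?_, rfl⟩
    · rintro _ ⟨x, rfl⟩
      refine isMeagre_of isClosed_singleton ?_
      rintro y hy N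
      rw [Set.mem_singleton_iff] at hy
      subst hy
      refine ⟨Function.update y N (y N + 1), ?_, ?_⟩
      · intro n hn
        rw [Function.update_of_ne hn.ne]
      · intro h
        rw [Set.mem_singleton_iff] at h
        have := congrFun h N
        rw [Function.update_self] at this
        omega
    · rw [Set.eq_univ_iff_forall]
      intro x
      exact ⟨{x}, ⟨x, rfl⟩, rfl⟩
  by_contra hcon
  rw [not_lt] at hcon
  obtain ⟨A, hA, hU, hc⟩ := csInf_mem hne
  have h1 : A.Countable := by
    rw [← Cardinal.le_aleph0_iff_set_countable, hc]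
    exact hcon
  have h2 : IsMeagre (⋃₀ A) := by
    rw [Set.sUnion_eq_biUnion]
    exact isMeagre_biUnion h1 hA
  rw [hU] at h2
  have h3 : (∅ : Set (ℕ → ℕ)) ∈ residual (ℕ → ℕ) := by
    have := h2
    unfold IsMeagre at this
    rwa [Set.compl_univ] at this
  have h4 := dense_of_mem_residual h3
  exact (Dense.nonempty h4).ne_empty rfl

/-- the sequence of conditions coded by `x` -/
def seqx {P : Type} (le : P → P → Prop) [DecidableRel le] (e : ℕ → P) (p0 : P) (x : ℕ → ℕ) :
    ℕ → P
  | 0 => p0
  | n + 1 => if le (e (x n)) (seqx le e p0 x n) then e (x n) else seqx le e p0 x n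

theorem seqx_congr {P : Type} (le : P → P → Prop) [DecidableRel le] (e : ℕ → P) (p0 : P)
    (x y : ℕ → ℕ) (n : ℕ) (h : ∀ m < n, x m = y m) :
    seqx le e p0 x n = seqx le e p0 y n := by
  induction n with
  | zero => rfl
  | succ n ih =>
    have h1 := ih (fun m hm => h m (hm.trans (Nat.lt_succ_self n)))
    have h2 := h n (Nat.lt_succ_self n)
    simp only [seqx]
    rw [h1, h2]

/-- **Fewer than `cov(M)` dense sets of a countable order are met by one descending sequence.** -/
theorem exists_seq {P : Type} [Countable P] (le : P → P → Prop) (hrefl : ∀ p, le p p)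
    (p0 : P) {ι : Type} (hι : #ι < covM) (D : ι → P → Prop)
    (hD : ∀ i p, ∃ q, le q p ∧ D i q) :
    ∃ s : ℕ → P, s 0 = p0 ∧ (∀ n, le (s (n + 1)) (s n)) ∧ ∀ i, ∃ n, D i (s n) := by
  classical
  have : Nonempty P := ⟨p0⟩
  obtain ⟨e, he⟩ := exists_surjective_nat P
  obtain ⟨x, hx⟩ := exists_avoid hι
    (fun i => {x : ℕ → ℕ | ∀ n, ¬ D i (seqx le e p0 x n)}) (by
      intro i
      refine isMeagre_of ?_ ?_
      · have h1 : {x : ℕ → ℕ | ∀ n, ¬ D i (seqx le e p0 x n)} =
            ⋂ n, {x : ℕ → ℕ | ¬ D i (seqx le e p0 x n)} := by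
          ext x; simp
        rw [h1]
        refine isClosed_iInter fun n => ?_
        rw [← isOpen_compl_iff, isOpen_pi_iff]
        intro y hy
        refine ⟨Finset.range n, fun m => {y m}, fun m _ => ⟨isOpen_discrete _, rfl⟩, ?_⟩
        intro z hz
        have h2 : seqx le e p0 z n = seqx le e p0 y n := by
          apply seqx_congr
          intro m hm
          exact hz m (by simpa using hm)
        intro hzn
        apply hy
        change ¬ D i (seqx le e p0 y n)
        rw [← h2]
        exact hzn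
      · intro y hy N
        obtain ⟨q, hq, hDq⟩ := hD i (seqx le e p0 y N)
        obtain ⟨k, hk⟩ := he q
        refine ⟨Function.update y N k, ?_, ?_⟩
        · intro n hn
          rw [Function.update_of_ne hn.ne]
        · intro hmem
          apply hmem (N + 1)
          have h2 : seqx le e p0 (Function.update y N k) N = seqx le e p0 y N := by
            apply seqx_congr
            intro m hm
            rw [Function.update_of_ne hm.ne]
          simp only [seqx]
          rw [h2, Function.update_self, hk, if_pos hq]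
          exact hDq)
  refine ⟨seqx le e p0 x, rfl, ?_, ?_⟩
  · intro n
    simp only [seqx]
    split_ifs with h
    · exact h
    · exact hrefl _
  · intro i
    by_contra hno
    push Not at hno
    exact hx i hno

end Pool.Agent.H63.CV
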