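import Pool.Agent.H63.CV.Ext

set_option autoImplicit false

open Cardinal Submodule

namespace Pool.Agent.H63.CV

open Pool.Agent.H14.GLCH

variable {F : Type} [Field F] {V : Type} [AddCommGroup V] [Module F V]

theorem outer' {I : Type} (P : I → Pairs F V ℵ₀) (r : I → I → Prop) [IsWellOrder I r]
    (hF : #F ≤ ℵ₀) (hV : Module.rank F V ≤ ℵ₀)
    (hr : ∀ x : I, #{y : I // r y x} < covM) (x : I) :
    (∀ u : (P x).1.1, hh ℵ₀ P r x (u : V) = ((P x).2 u : V)) ∧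
      ∀ g ∈ Gm' ℵ₀ P r x, Star ℵ₀ g := by
  induction x using (IsWellFounded.wf (r := r)).induction with
  | _ x ih =>
    have hstar : ∀ g ∈ Gm ℵ₀ P r x, Star ℵ₀ g := by
      intro g hg
      rcases mem_Gm ℵ₀ P r hg with rfl | ⟨y, hy, hgy⟩
      · exact star_one ℵ₀
      · exact (ih y hy).2 g hgy
    have hcard : #(Gm ℵ₀ P r x) < covM := by
      have h1 : #(Gm ℵ₀ P r x) ≤ max ℵ₀ #{y : I // r y x} := by
        apply mk_closure_le _ (le_max_left _ _)
        refine le_trans ?_ (le_max_right _ _)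
        refine Cardinal.mk_le_of_surjective
          (f := fun y : {y : I // r y x} =>
            (⟨hh ℵ₀ P r y.1, ⟨y.1, y.2, rfl⟩⟩ : {g | ∃ (y : I) (_ : r y x), g = hh ℵ₀ P r y})) ?_
        rintro ⟨g, y, hy, rfl⟩
        exact ⟨⟨y, hy⟩, rfl⟩
      exact h1.trans_lt (max_lt aleph0_lt_covM (hr x))
    obtain ⟨h, hh1, hh2⟩ := exists_ext' hF hV (Gm ℵ₀ P r x) hcard (P x).1.1 (P x).1.2 (P x).2
    have hex : ∃ h : V ≃ₗ[F] V, (∀ u : (P x).1.1, h (u : V) = ((P x).2 u : V)) ∧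
        ∀ g ∈ Gm ℵ₀ P r x ⊔ Subgroup.closure {h}, Star ℵ₀ g :=
      ⟨h, hh1, star_closure le_rfl (Gm ℵ₀ P r x) hstar h hh2⟩
    have he : hh ℵ₀ P r x = hex.choose := by
      rw [hh_eq]
      unfold extF
      rw [dif_pos hex]
    unfold Gm'
    rw [he]
    exact hex.choose_spec

/-- **Family version.** Any family of at most `cov(M)` automorphisms of subspaces of infinite
codimension is induced by one proper subgroup, if `F` is countable and `dim V = ℵ₀`. -/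
theorem family' (hF : #F ≤ ℵ₀) (hV : Module.rank F V = ℵ₀)
    {I : Type} (hI : #I ≤ covM) (P : I → Pairs F V ℵ₀) :
    ∃ H : Subgroup (V ≃ₗ[F] V), H ≠ ⊤ ∧
      ∀ i : I, ∃ h ∈ H, ∀ u : (P i).1.1, h (u : V) = ((P i).2 u : V) := by
  obtain ⟨r, hwo, hr⟩ := Cardinal.exists_ord_eq I
  have hrlt : ∀ x : I, #{y : I // r y x} < covM := by
    intro x
    have h1 := Cardinal.card_typein_lt x hr
    rw [Ordinal.card_typein] at h1
    exact h1.trans_le hI
  have hout := outer' P r hF hV.le hrlt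
  refine ⟨Subgroup.closure (Set.range (hh ℵ₀ P r)), ?_, ?_⟩
  · intro htop
    obtain ⟨g, hg⟩ := exists_not_star (F := F) (V := V) le_rfl hV
    apply hg
    have hmem : g ∈ Subgroup.closure (Set.range (hh ℵ₀ P r)) := by
      rw [htop]; exact Subgroup.mem_top g
    rcases mem_Gall ℵ₀ P r hmem with rfl | ⟨y, hy⟩
    · exact star_one ℵ₀
    · exact (hout y).2 g hy
  · intro i
    exact ⟨hh ℵ₀ P r i, Subgroup.subset_closure ⟨_, rfl⟩, (hout i).1⟩

/-- **Main theorem.** If `cov(M) = 2 ^ ℵ₀`, `|F| ≤ ℵ₀` and `dim V = ℵ₀`, there is a proper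
subgroup of `GL(V)` inducing the full linear group on every subspace of infinite codimension. -/
theorem main' (hcov : covM = 2 ^ (ℵ₀ : Cardinal.{0})) (hF : #F ≤ ℵ₀)
    (hV : Module.rank F V = ℵ₀) :
    ∃ H : Subgroup (V ≃ₗ[F] V), H ≠ ⊤ ∧
      ∀ U : Submodule F V, Module.rank F (V ⧸ U) = ℵ₀ → ∀ f : U ≃ₗ[F] U,
        ∃ h ∈ H, ∀ u : U, h (u : V) = (f u : V) := by
  have hVc : #V ≤ ℵ₀ := mk_le_of_rank le_rfl hF hV.le
  obtain ⟨H, hH, hH2⟩ := family' hF hV (I := Pairs F V ℵ₀)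
    ((mk_pairs_le ℵ₀ le_rfl hVc).trans hcov.ge) id
  exact ⟨H, hH, fun U hU f => hH2 ⟨⟨U, hU.ge⟩, f⟩⟩

end Pool.Agent.H63.CV
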